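import Pool.Agent.Y192.KC.AStm
import Pool.Agent.Y220.OG.Lgt

/-! KA2: logarithmic pluricanonical forms on ramified extensions of larger transcendence degree. -/

set_option autoImplicit false

open FF Pool.Agent.W602.GT Pool.Agent.W603.LV Pool.Agent.TH143.GT Pool.Agent.Y220.OG

namespace Pool.Agent.Y484.KA

/-- a determinant with estimates of the minors of the first columns and of the entries of the other
columns -/
theorem ge_det_cols {k L ι : Type} [Field k] [Field L] [Algebra k L] (P : Place k L) (p : ℕ)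
    (A b : ℤ) : ∀ (q : ℕ) (M : ι → Fin (p + q) → L),
    (∀ r : Fin p → ι, Ge P A (Matrix.of fun i j => M (r i) (Fin.castAdd q j)).det) →
    (∀ i c, Ge P b (M i (Fin.natAdd p c))) →
    ∀ r : Fin (p + q) → ι, Ge P (A + q * b) (Matrix.of fun i j => M (r i) j).det := by
  intro q
  induction q with
  | zero =>
    intro M hX _ r
    have h1 := hX r
    simpa using h1
  | succ q ih =>
    intro M hX hY r
    have h1 := Matrix.det_succ_column (n := p + q) (Matrix.of fun i j => M (r i) j)
      (Fin.last (p + q))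
    have key : Ge P (A + ((q + 1 : ℕ) : ℤ) * b) (∑ i : Fin (p + q).succ,
        (-1) ^ ((i : ℕ) + ((Fin.last (p + q) : Fin (p + q).succ) : ℕ)) *
        (Matrix.of fun i j => M (r i) j) i (Fin.last (p + q)) *
        ((Matrix.of fun i j => M (r i) j).submatrix i.succAbove
          (Fin.last (p + q)).succAbove).det) := by
      refine Ge.sum _ _ fun i _ => ?_
      have h2 : Ge P 0 ((-1 : L) ^ ((i : ℕ) + ((Fin.last (p + q) : Fin (p + q).succ) : ℕ))) := by
        have := (Ge.one (P := P)).neg.pow ((i : ℕ) + ((Fin.last (p + q) : Fin (p + q).succ) : ℕ))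
        simpa using this
      have h3 : Ge P b ((Matrix.of fun i j => M (r i) j) i (Fin.last (p + q))) := hY (r i) (Fin.last q)
      have h4 := ih (fun i j => M i (Fin.castSucc j)) (fun r => hX r) (fun i c => hY i (Fin.castSucc c))
        (fun j => r (i.succAbove j))
      have h5 : ((Matrix.of fun i j => M (r i) j).submatrix i.succAbove
          (Fin.last (p + q)).succAbove) =
          Matrix.of fun i' j => M (r (i.succAbove i')) (Fin.castSucc j) := by
        ext i' j
        simp
      rw [h5]
      refine ((h2.mul h3).mul h4).mono (le_of_eq ?_)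
      push_cast
      ring
    exact (congrArg (Ge P (A + ((q + 1 : ℕ) : ℤ) * b)) h1).mpr key

/-- the columns -/
noncomputable def colv {k K L : Type} [Field k] [Field K] [Field L] [Algebra k L] [Algebra K L]
    {p q : ℕ} (t : Fin p → K) (s : Fin q → L) (D : Derivation k L L) : Fin (p + q) → L :=
  Fin.append (fun b => D (algebraMap K L (t b))) (fun c => D (s c) / s c)

/-- the alternating form -/
noncomputable def Th {k K L : Type} [Field k] [Field K] [Field L] [Algebra k L] [Algebra K L]
    {p q : ℕ} (t : Fin p → K) (s : Fin q → L) (D : Fin (p + q) → Derivation k L L) : L :=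
  (Matrix.of fun i j => colv t s (D i) j).det

theorem colv_comb {k K L : Type} [Field k] [Field K] [Field L] [Algebra k L] [Algebra K L]
    {p q m : ℕ} (t : Fin p → K) (s : Fin q → L) (a : Fin m → L) (D : Fin m → Derivation k L L)
    (j : Fin (p + q)) : colv t s (∑ i, a i • D i) j = ∑ i, a i * colv t s (D i) j := by
  unfold colv
  refine Fin.addCases (fun b => ?_) (fun c => ?_) j
  · simp only [Fin.append_left]
    rw [der_sum]
    simp only [smul_eq_mul]
  · simp only [Fin.append_right]
    rw [der_sum, Finset.sum_div]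
    refine Finset.sum_congr rfl fun i _ => ?_
    rw [smul_eq_mul, mul_div_assoc]

theorem Th_smul {k K L : Type} [Field k] [Field K] [Field L] [Algebra k L] [Algebra K L]
    {p q : ℕ} (t : Fin p → K) (s : Fin q → L) (A : Matrix (Fin (p + q)) (Fin (p + q)) L)
    (D : Fin (p + q) → Derivation k L L) :
    Th t s (fun i => ∑ j, A i j • D j) = A.det * Th t s D := by
  unfold Th
  rw [← Matrix.det_mul]
  congr 1
  ext i j
  rw [Matrix.mul_apply, Matrix.of_apply, colv_comb]
  rfl

/-- the estimates of the form in terms of those of the Jacobians -/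
theorem Th_est {k K L : Type} [Field k] [Field K] [Field L] [Algebra k L] [Algebra K L]
    {p q : ℕ} (t : Fin p → K) (s : Fin q → L) (P : Place k L) (A b : ℤ)
    (D : Fin (p + q) → Derivation k L L)
    (hX : ∀ r : Fin p → Fin (p + q), Ge P A (jac (fun b => algebraMap K L (t b))
      (fun i => D (r i))))
    (hY : ∀ i c, Ge P b (D i (s c) / s c)) : Ge P (A + q * b) (Th t s D) := by
  have h1 := ge_det_cols P p A b q (fun (i : Fin (p + q)) j => colv t s (D i) j) (by
      intro r
      have h2 := hX r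
      unfold jac at h2
      have h3 : (Matrix.of fun i j => colv t s (D (r i)) (Fin.castAdd q j)) =
          Matrix.of fun i j => D (r i) (algebraMap K L (t j)) := by
        ext i j
        simp only [Matrix.of_apply, colv, Fin.append_left]
      rw [h3]
      exact h2) (by
      intro i c
      simp only [colv, Fin.append_right]
      exact hY i c) id
  exact h1

/-- the local estimates -/
theorem a1_local {k K : Type} [Field k] [CharZero k] [Field K] [Algebra k K]
    [Algebra.EssFiniteType k K] {n d q : ℕ} (y : Fin (n + 1) → K) (B : Place k K → Prop)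
    (hy : ∀ i, y i ≠ 0)
    (htr : Algebra.trdeg k K = d) {N : ℕ} (hN : 0 < N)
    (f : Fin (d + 1) → K) (t : Fin d → K) (ht : IsTranscendenceBasis k t)
    (hty : ∀ b, ∃ i, t b = y i / y 0)
    (hlog : ∀ v : Place k K, Divisorial d v → ∀ j, LogAt v (fun D => jac t D ^ N * f j))
    (hreg : ∀ v : Place k K, Divisorial d v →
      ¬ ((∃ i, v.ord (y i) ≠ v.ord (y 0)) ∨ B v) →
      ∀ j, RegAt v (fun D => jac t D ^ N * f j))
    (a : ℕ) (η : K)
    (hη : ∀ (v : Place k K) (c : ℤ),
      (∀ j, Ge v (-c) (f j)) → Ge v (-(a * c)) η ∧ ∀ i, Ge v (-(a * c) + |v.ord (y i / y 0)|) η)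
    (L : Type) [Field L] [Algebra k L] [Algebra K L] [IsScalarTower k K L]
    (s : Fin q → L) (hs : ∀ c, s c ≠ 0)
    (hL : Algebra.trdeg k L = (d + q : ℕ)) (P : Place k L) (hP : Divisorial (d + q) P)
    (j : Fin (d + 1)) (W : ℕ)
    (hW : W = 2 * (N + N * a)) (D : Fin (d + q) → Derivation k L L) :
    ((∀ i, DerLog P (D i)) → P.Reg (algebraMap K L (f j * ((∏ b, t b)⁻¹) ^ (N + N * a) * η) *
      Th t s D ^ W)) ∧
    ((∀ i, DerReg P (D i)) → (((∀ i, P.ord (algebraMap K L (y i)) = P.ord (algebraMap K L (y 0))) ∧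
          (∀ (P0 : Place k K) (e : ℕ), (∀ z : K, P.ord (algebraMap K L z) = e * P0.ord z) → B P0 →
            e ≠ 1) ∧ ∀ c, P.ord (s c) = 0) ∨
        ∃ i j, P.ord (algebraMap K L (y i)) + (2 * W * (1 + q) : ℕ) ≤ P.ord (algebraMap K L (y j))) →
      P.Reg (algebraMap K L (f j * ((∏ b, t b)⁻¹) ^ (N + N * a) * η) * Th t s D ^ W)) := by
  classical
  -- logarithmic derivatives
  have hsL : (∀ i, DerLog P (D i)) → ∀ i c, Ge P 0 (D i (s c) / s c) := fun hD i c => hD i (s c)
  have hsR : (∀ i, DerReg P (D i)) → ∀ i c, Ge P (-1) (D i (s c) / s c) := by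
    intro hD i c
    have h1 := ge_div (hs c) (ge_der (hD i) (ge_ord P (s c)))
    exact h1.mono (by linarith)
  have hsU : (∀ i, DerReg P (D i)) → (∀ c, P.ord (s c) = 0) → ∀ i c, Ge P 0 (D i (s c) / s c) :=
    fun hD h0 i c => ge_logder_reg (hD i) (hs c) (h0 c)
  by_cases htriv : ∀ g : K, P.ord (algebraMap K L g) = 0
  · have hr : ∀ g : K, Ge P 0 (algebraMap K L g) := fun g => Or.inr (htriv g).ge
    have key : (∀ i b, Ge P 0 (D i (algebraMap K L (t b)))) → (∀ i c, Ge P 0 (D i (s c) / s c)) →
        P.Reg (algebraMap K L (f j * ((∏ b, t b)⁻¹) ^ (N + N * a) * η) * Th t s D ^ W) := by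
      intro h1 h1'
      have h2 : Ge P 0 (Th t s D) := by
        have h3 := Th_est t s P 0 0 D (fun r => by
          have h3 := ge_det_col P (Matrix.of fun i b => D (r i) (algebraMap K L (t b)))
            (fun _ => 0) (fun i b => h1 (r i) b)
          rw [Finset.sum_const_zero] at h3
          exact h3) h1'
        simpa using h3
      change Ge P 0 _
      have h4 := (hr (f j * ((∏ b, t b)⁻¹) ^ (N + N * a) * η)).mul (h2.pow W)
      rw [mul_zero, add_zero] at h4
      exact h4
    refine ⟨fun hD => key (fun i b => ge_der_log (hD i) (hr _)) (hsL hD), fun hD hB => ?_⟩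
    rcases hB with ⟨_, _, h0⟩ | ⟨i, i', hii⟩
    · exact key (fun i b => hD i _ (hr _)) (hsU hD h0)
    · exfalso
      rw [htriv, htriv] at hii
      have h1 : 0 < 2 * W * (1 + q) := by
        rw [hW]
        positivity
      have h2 : (0 : ℤ) < ((2 * W * (1 + q) : ℕ) : ℤ) := by exact_mod_cast h1
      linarith
  push Not at htriv
  obtain ⟨e, v, hov⟩ := exists_over (K := K) P htriv
  have hv : Divisorial d v := Pool.Agent.W419.PG.main k K L d (d + q) v P e htr hL hov hP
  obtain ⟨κ, ⟨D1, hD1, hJ1, ho1⟩, ⟨D2, hD2, hJ2, ho2⟩, hest⟩ := kap htr t ht v hv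
  have he : (1 : ℤ) ≤ e := by exact_mod_cast hov.1
  have hy' : ∀ i, y i / y 0 ≠ 0 := fun i => div_ne_zero (hy i) (hy 0)
  have ht0 : ∀ b, t b ≠ 0 := by
    intro b
    obtain ⟨i, hi⟩ := hty b
    rw [hi]
    exact hy' i
  -- the estimates of the form
  have hLD : (∀ i, DerLog P (D i)) → Ge P (e * (κ + 1)) (Th t s D) := by
    intro hD
    have h1 := Th_est t s P (e * (κ + 1)) 0 D
      (fun r => (hest L P e hov fun i => D (r i)).2 fun i => hD (r i)) (hsL hD)
    rwa [mul_zero, add_zero] at h1
  have hRD : (∀ i, DerReg P (D i)) → ∀ b : ℤ, (∀ i c, Ge P b (D i (s c) / s c)) →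
      Ge P (e * κ + q * b) (Th t s D) ∧ Ge P (e * (κ + 1) - 1 + q * b) (Th t s D) := by
    intro hD b hb
    exact ⟨Th_est t s P _ b D
      (fun r => ((hest L P e hov fun i => D (r i)).1 fun i => hD (r i)).1) hb,
      Th_est t s P _ b D
      (fun r => ((hest L P e hov fun i => D (r i)).1 fun i => hD (r i)).2) hb⟩
  set T : ℤ := ∑ b, v.ord (t b) with hT
  have hτ : Ge v (-T) (∏ b, t b)⁻¹ := by
    right
    rw [v.ord_inv]
    have h1 : v.ord (∏ b, t b) = T := by
      rw [hT]
      have h2 : ∀ s : Finset (Fin d), v.ord (∏ b ∈ s, t b) = ∑ b ∈ s, v.ord (t b) := by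
        intro s
        induction s using Finset.induction_on with
        | empty => simp [v.ord_one]
        | insert b s hb ih =>
          rw [Finset.prod_insert hb, Finset.sum_insert hb,
            v.ord_mul (ht0 b) (Finset.prod_ne_zero_iff.2 fun i _ => ht0 i), ih]
      exact h2 Finset.univ
    rw [h1]
  -- the estimates at `v`
  have F1 : ∀ j, Ge v (-(N * (κ + 1))) (f j) := by
    intro j
    have h1 := hlog v hv j D2 hD2
    change Ge v 0 (jac t D2 ^ N * f j) at h1
    have h2 : v.ord (jac t D2 ^ N) = N * (κ + 1) := by rw [v.ord_pow, ho2]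
    have h3 := Ge.of_mul (pow_ne_zero N hJ2) h1
    rw [h2] at h3
    simpa using h3
  have F2 : ¬ ((∃ i, v.ord (y i) ≠ v.ord (y 0)) ∨ B v) →
      ∀ j, Ge v (-(N * κ)) (f j) := by
    intro hb j
    have h1 := hreg v hv hb j D1 hD1
    change Ge v 0 (jac t D1 ^ N * f j) at h1
    have h2 : v.ord (jac t D1 ^ N) = N * κ := by rw [v.ord_pow, ho1]
    have h3 := Ge.of_mul (pow_ne_zero N hJ1) h1
    rw [h2] at h3
    simpa using h3
  have F3 : T ≤ κ + 1 := by
    have h1 : Ge v T (jac t D2) := ge_det_col v _ (fun b => v.ord (t b)) fun i b =>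
      ge_der_log (hD2 i) (ge_ord v (t b))
    have h2 := h1.resolve_left hJ2
    rwa [ho2] at h2
  have F4 : (∀ b, v.ord (t b) = 0) → 0 ≤ κ := by
    intro h0
    have h1 : Ge v (∑ _b : Fin d, (0 : ℤ)) (jac t D1) := ge_det_col v _ (fun _ => (0 : ℤ))
      fun i b => hD1 i _ (Or.inr (h0 b).ge)
    have h2 := h1.resolve_left hJ1
    rw [ho1] at h2
    simpa using h2
  have hyo : ∀ i, v.ord (y i / y 0) = v.ord (y i) - v.ord (y 0) := fun i =>
    v.ord_div (hy i) (hy 0)
  -- the estimate of the coefficient
  have hcoef : ∀ (c r : ℤ), (∀ j, Ge v (-c) (f j)) → Ge v (-(a * c) + r) η →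
      Ge P (e * (-c + (N + N * a : ℕ) * (-T) + (-(a * c) + r)))
        (algebraMap K L (f j * ((∏ b, t b)⁻¹) ^ (N + N * a) * η)) := by
    intro c r h1 h2
    exact over_ge hov (((h1 j).mul (hτ.pow _)).mul h2)
  have hW' : (W : ℤ) = 2 * (N + N * a) := by rw [hW]; push_cast; ring
  have hN0 : (0 : ℤ) ≤ N := Int.natCast_nonneg N
  have ha0 : (0 : ℤ) ≤ a := Int.natCast_nonneg a
  have hNa : (0 : ℤ) ≤ N + N * a := by positivity
  constructor
  · intro hD
    refine reg_prod (hcoef (N * (κ + 1)) 0 F1 (by
      rw [add_zero]; exact (hη v _ F1).1)) (hLD hD) ?_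
    rw [hW']
    push_cast
    have h1 : (0 : ℤ) ≤ e * ((N + N * a) * (κ + 1 - T)) :=
      mul_nonneg (by linarith) (mul_nonneg hNa (by linarith))
    linarith
  · intro hD hB
    rcases hB with ⟨hBy, hBG, hs0⟩ | ⟨i, i', hii⟩
    · obtain ⟨hR1, hR2⟩ := hRD hD 0 (hsU hD hs0)
      rw [mul_zero, add_zero] at hR1 hR2
      have hyv : ∀ i, v.ord (y i) = v.ord (y 0) := by
        intro i
        have h1 := hBy i
        rw [hov.2, hov.2] at h1
        exact mul_left_cancel₀ (by omega) h1
      have ht1 : ∀ b, v.ord (t b) = 0 := by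
        intro b
        obtain ⟨i, hi⟩ := hty b
        rw [hi, hyo, hyv i, sub_self]
      have hT0 : T = 0 := Finset.sum_eq_zero fun b _ => ht1 b
      have hκ := F4 ht1
      by_cases hG : B v
      · have he2 : (2 : ℤ) ≤ e := by
          have h5 := hBG v e (fun z => hov.2 z) hG
          have h6 := hov.1
          exact_mod_cast (by omega : 2 ≤ e)
        refine reg_prod (hcoef (N * (κ + 1)) 0 F1 (by
          rw [add_zero]; exact (hη v _ F1).1)) hR2 ?_
        rw [hW', hT0]
        push_cast
        have h1 : (2 : ℤ) ≤ e * (κ + 1) := by nlinarith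
        have h2 : (0 : ℤ) ≤ (N + N * a) * (e * (κ + 1) - 2) :=
          mul_nonneg hNa (by linarith)
        linarith
      · have hnb : ¬ ((∃ i, v.ord (y i) ≠ v.ord (y 0)) ∨ B v) := by
          rintro (⟨i, hi⟩ | h)
          · exact hi (hyv i)
          · exact hG h
        have F2' := F2 hnb
        refine reg_prod (hcoef (N * κ) 0 F2' (by
          rw [add_zero]; exact (hη v _ F2').1)) hR1 ?_
        rw [hW', hT0]
        push_cast
        have h2 : (0 : ℤ) ≤ (N + N * a) * (e * κ) :=
          mul_nonneg hNa (mul_nonneg (by linarith) hκ)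
        linarith
    · obtain ⟨-, hR2⟩ := hRD hD (-1) (hsR hD)
      rw [hov.2, hov.2] at hii
      push_cast at hii
      have hbig : ∃ i0, (W : ℤ) * (1 + q) ≤ e * |v.ord (y i0 / y 0)| := by
        by_contra hcon
        push Not at hcon
        have h1 := hcon i
        have h2 := hcon i'
        rw [hyo] at h1 h2
        have h3 : v.ord (y i') - v.ord (y 0) ≤ |v.ord (y i') - v.ord (y 0)| := le_abs_self _
        have h4 : -(v.ord (y i) - v.ord (y 0)) ≤ |v.ord (y i) - v.ord (y 0)| := neg_le_abs _
        have h5 : (e : ℤ) * (v.ord (y i') - v.ord (y 0)) ≤ e * |v.ord (y i') - v.ord (y 0)| :=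
          mul_le_mul_of_nonneg_left h3 (by linarith)
        have h6 : (e : ℤ) * -(v.ord (y i) - v.ord (y 0)) ≤ e * |v.ord (y i) - v.ord (y 0)| :=
          mul_le_mul_of_nonneg_left h4 (by linarith)
        linarith
      obtain ⟨i0, hi0⟩ := hbig
      refine reg_prod (hcoef (N * (κ + 1)) _ F1 ((hη v _ F1).2 i0)) hR2 ?_
      rw [hW'] at hi0 ⊢
      push_cast
      have h1 : (0 : ℤ) ≤ e * ((N + N * a) * (κ + 1 - T)) :=
        mul_nonneg (by linarith) (mul_nonneg hNa (by linarith))
      linarith

theorem t_a1g : Pool.Agent.Y192.KC.St_a1g := by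
  intro K _ _ _ n d q y B hy halg hgt
  classical
  obtain ⟨htr, N, hN, ω, hω, hlog, hreg, D0, hD0, hind⟩ := hgt
  -- a transcendence basis among the ratios
  obtain ⟨t, ht, hty⟩ : ∃ t : Fin d → K, IsTranscendenceBasis ℂ t ∧ ∀ b, ∃ i, t b = y i / y 0 := by
    have h1 : Algebra.IsAlgebraic
        (IntermediateField.adjoin ℂ (Set.range fun i => y i / y 0)) K := ⟨halg⟩
    have h2 := alg_adjoin h1
    obtain ⟨B, hB, hBb⟩ := exists_isTranscendenceBasis_subset (R := ℂ) (A := K)
      (Set.range fun i => y i / y 0)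
    have hcard := hBb.cardinalMk_eq_trdeg
    rw [htr] at hcard
    obtain ⟨φ⟩ : Nonempty (Fin d ≃ B) := by
      rw [← Cardinal.eq, Cardinal.mk_fin]
      exact hcard.symm
    refine ⟨fun i => (φ i : K), hBb.comp_equiv φ, fun b => ?_⟩
    obtain ⟨i, hi⟩ := hB (φ b).2
    exact ⟨i, hi.symm⟩
  choose Et hEt using fun i => exists_der t ht (fun j => if i = j then (1 : K) else 0)
  have hdual : Dual t Et := ⟨ht, hEt⟩
  set f : Fin (d + 1) → K := fun j => ω j Et with hf
  have hωf : ∀ j, ω j = fun D => jac t D ^ N * f j := by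
    intro j
    funext D
    have h1 := hω j (Matrix.of fun i j => D i (t j)) Et
    have h2 : (fun i => ∑ j, (Matrix.of fun i j => D i (t j)) i j • Et j) = D := by
      funext i
      exact (hdual.expand (D i)).symm
    rw [h2] at h1
    exact h1
  have hf0 : f 0 ≠ 0 := by
    intro h0
    apply hD0
    rw [hωf 0]
    simp only [h0, mul_zero]
  have hJ0 : jac t D0 ^ N ≠ 0 := by
    intro h0
    apply hD0
    rw [hωf 0]
    simp only [h0, zero_mul]
  have hratio : (fun i : Fin d => ω i.succ D0 / ω 0 D0) = fun i : Fin d => f i.succ / f 0 := by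
    funext i
    rw [hωf 0, hωf i.succ]
    simp only
    rw [mul_div_mul_left _ _ hJ0]
  rw [hratio] at hind
  have hbasis : IsTranscendenceBasis ℂ (fun i : Fin d => f i.succ / f 0) := by
    refine hind.isTranscendenceBasis_of_lift_trdeg_le_of_finite ?_
    rw [htr]
    simp
  have halg2 : Algebra.IsAlgebraic
      (IntermediateField.adjoin ℂ (Set.range fun i : Fin d => f i.succ / f 0)) K :=
    hbasis.isAlgebraic_field
  obtain ⟨a, η, hη0, hη⟩ := rel_all (k := ℂ) hf0 (fun i => y i / y 0)
    (fun i => div_ne_zero (hy i) (hy 0)) (fun i => halg2.isAlgebraic _)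
  set W : ℕ := 2 * (N + N * a) with hW
  refine ⟨2 * W * (1 + q), ?_⟩
  intro L _ _ _ _ _ s Bd hLtr hs hsi hBd hneg
  have ht0 : ∀ b, t b ≠ 0 := by
    intro b
    obtain ⟨i, hi⟩ := hty b
    rw [hi]
    exact div_ne_zero (hy i) (hy 0)
  have hloc := fun (P : Place ℂ L) (hP : Divisorial (d + q) P) (j : Fin (d + 1)) =>
    a1_local y B hy htr hN
    f t ht hty (fun v hv j => by
      have := hlog v hv j
      rwa [hωf j] at this) (fun v hv hb j => by
      have := hreg v hv hb j
      rwa [hωf j] at this) a η hη L s hs hLtr P hP j W hW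
  have hτ0 : ((∏ b, t b)⁻¹) ^ (N + N * a) ≠ 0 :=
    pow_ne_zero _ (inv_ne_zero (Finset.prod_ne_zero_iff.2 fun b _ => ht0 b))
  have hWpos : 1 ≤ W := by
    rw [hW]
    have : 0 < 2 * (N + N * a) := by positivity
    omega
  -- a basis
  have hsum : AlgebraicIndependent ℂ (Sum.elim s (algebraMap K L ∘ t)) := ht.1.sumElim_comp hsi
  set u : Fin (d + q) → L := Fin.append (fun b => algebraMap K L (t b)) s with hu
  have hui : AlgebraicIndependent ℂ u := by
    have h1 : u = (Sum.elim s (algebraMap K L ∘ t)) ∘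
        (fun i : Fin (d + q) => Sum.swap (finSumFinEquiv.symm i)) := by
      funext i
      refine Fin.addCases (fun b => ?_) (fun c => ?_) i
      · simp only [hu, Fin.append_left, Function.comp, finSumFinEquiv_symm_apply_castAdd,
          Sum.swap_inl, Sum.elim_inr]
      · simp only [hu, Fin.append_right, Function.comp, finSumFinEquiv_symm_apply_natAdd,
          Sum.swap_inr, Sum.elim_inl]
    rw [h1]
    apply hsum.comp
    intro i j hij
    have h2 := Sum.swap_leftInverse.injective hij
    exact finSumFinEquiv.symm.injective h2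
  have hub : IsTranscendenceBasis ℂ u := by
    refine hui.isTranscendenceBasis_of_lift_trdeg_le_of_finite ?_
    rw [hLtr]
    simp
  choose EL hEL using fun i : Fin (d + q) => exists_der u hub
    (fun j => if i = j then (Fin.append (fun _ => (1 : L)) s : Fin (d + q) → L) j else 0)
  have hTh : Th t s EL = 1 := by
    unfold Th
    have h2 : (Matrix.of fun i j => colv t s (EL i) j) =
        (1 : Matrix (Fin (d + q)) (Fin (d + q)) L) := by
      ext i j
      rw [Matrix.of_apply, Matrix.one_apply]
      have h3 := hEL i j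
      unfold colv
      revert h3
      refine Fin.addCases (fun b => ?_) (fun c => ?_) j
      · intro h3
        simp only [hu, Fin.append_left] at h3 ⊢
        exact h3
      · intro h3
        simp only [hu, Fin.append_right] at h3 ⊢
        rw [h3]
        split_ifs with hij
        · exact div_self (hs c)
        · exact zero_div _
    rw [h2, Matrix.det_one]
  -- the form
  have h1 := hneg W hWpos (fun D => algebraMap K L (f 0 * ((∏ b, t b)⁻¹) ^ (N + N * a) * η) *
      Th t s D ^ W) (by
      intro A D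
      simp only
      rw [Th_smul, mul_pow]
      ring) (by
      intro P hP hB D hD
      exact (hloc P hP 0 D).2 hD (hBd P hB)) (by
      intro P hP hB D hD
      exact (hloc P hP 0 D).1 hD) EL
  rw [hTh, one_pow, mul_one] at h1
  exact (map_ne_zero _).2 (mul_ne_zero (mul_ne_zero hf0 hτ0) hη0) h1

end Pool.Agent.Y484.KA
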